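import Mathlib

/-!
# A coanalytic null-finite set without a Borel null-finite hull

For every non-discrete Polish abelian group `H` the Polish group `X = ℤ^ℕ × H` contains a
coanalytic null-finite set `A` that lies in no Borel null-finite subset of `X`.

Let `h k → 0` be nonzero elements of `H` and `g 0 = 0`, `g (k + 1) = h k`.  A colouring of `ℤ` with
long monochromatic intervals gives a continuous map `phi : ℤ^ℕ → 2^ℕ` such that every null-sequence
of `ℤ^ℕ` has a translate on which `phi` takes any prescribed value `c`.  Points of `2^ℕ` code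
sequences `D k` of analytic subsets of `ℤ^ℕ` through a universal sequence of coanalytic sets `R k`.
The reduction property of coanalytic sets, proved here by comparing the ranks of well-founded
trees, shrinks the `R k` to disjoint coanalytic sets `S k` with the same union.  The set `A`
consists of all `(x, g k)` with `x ∈ S k`, and of all `(x, v n)` where `phi x` codes a null-sequence
`v` of `H` outside the range of `g`.  It is null-finite because of the null-sequence `(0, h k)`.  If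
`B` is a Borel null-finite set containing it, the first part and the code of the sets
`{x | (x, g k) ∈ B}` show that the witness for `B` cannot have its second coordinates in the range
of `g` almost always, and the second part shows that they cannot be outside infinitely often.
-/

namespace Pool.Agent.Results.MP_ceb5ee_gt.CoanalyticNoHull

open Set Filter Topology MeasureTheory

/-! ### Trees of finite sequences, most recent entry at the head -/

/-- `s` is an immediate extension of `t` in the set `T` of finite sequences. -/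
def Ext (T : Set (List ℕ)) (s t : List ℕ) : Prop := (∃ n, s = n :: t) ∧ s ∈ T

/-- The length preserving, extension preserving map given by `f`, sending `[]` to `r`. -/
def mp (f : List ℕ → ℕ) (r : List ℕ) : List ℕ → List ℕ
  | [] => r
  | n :: s => f (n :: s) :: mp f r s

/-- `T` maps into the part of `T'` above `r`. -/
def Maps (T T' : Set (List ℕ)) (r : List ℕ) : Prop :=
  ∃ f : List ℕ → ℕ, ∀ n s, n :: s ∈ T → mp f r (n :: s) ∈ T'

lemma Maps.acc {T T' : Set (List ℕ)} {r : List ℕ} (f : List ℕ → ℕ)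
    (hf : ∀ n s, n :: s ∈ T → mp f r (n :: s) ∈ T') (u : List ℕ) (hu : Acc (Ext T') u) :
    ∀ s, mp f r s = u → ∃ h : Acc (Ext T) s, h.rank ≤ hu.rank := by
  induction hu with
  | intro u hu ih =>
    intro s hs
    have key : ∀ s', Ext T s' s → Ext T' (mp f r s') u := by
      rintro s' ⟨⟨n, rfl⟩, hn⟩
      refine ⟨⟨f (n :: s), ?_⟩, hf n s hn⟩
      rw [← hs]
      rfl
    have hacc : Acc (Ext T) s := by
      refine Acc.intro s fun s' hs' => ?_
      exact (ih _ (key s' hs') s' rfl).1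
    refine ⟨hacc, ?_⟩
    rw [Acc.rank_eq]
    refine Ordinal.iSup_le fun b => ?_
    obtain ⟨h, hle⟩ := ih _ (key b.1 b.2) b.1 rfl
    exact Order.succ_le_of_lt (lt_of_le_of_lt hle (Acc.rank_lt_of_rel (Acc.intro u hu) (key b.1 b.2)))

lemma exists_child {T T' : Set (List ℕ)} {s u : List ℕ} (hs : Acc (Ext T) s)
    (hu : Acc (Ext T') u) (hle : hs.rank ≤ hu.rank) {s' : List ℕ} (h : Ext T s' s) :
    ∃ n, ∃ h' : Ext T' (n :: u) u, (hs.inv h).rank ≤ (hu.inv h').rank := by
  by_contra hcon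
  push Not at hcon
  have h1 : hu.rank ≤ (hs.inv h).rank := by
    rw [hu.rank_eq]
    refine Ordinal.iSup_le fun b => ?_
    obtain ⟨b, ⟨n, rfl⟩, hb⟩ := b
    exact Order.succ_le_of_lt (hcon n ⟨⟨n, rfl⟩, hb⟩)
  exact absurd (hle.trans h1) (not_le.2 (Acc.rank_lt_of_rel hs h))

open Classical in
/-- A map chosen recursively. -/
noncomputable def chosen (T' : Set (List ℕ)) (P : List ℕ → List ℕ → Prop) (r : List ℕ) :
    List ℕ → List ℕ
  | [] => r
  | n :: s =>
    (if h : ∃ m, P (n :: s) (m :: chosen T' P r s) then h.choose else 0) :: chosen T' P r s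

lemma maps_of_rank {T T' : Set (List ℕ)} (hT : ∀ n s, n :: s ∈ T → s ≠ [] → s ∈ T)
    {r : List ℕ} (hs : Acc (Ext T) []) (hr : Acc (Ext T') r) (hle : hs.rank ≤ hr.rank) :
    Maps T T' r := by
  classical
  let P : List ℕ → List ℕ → Prop := fun s u =>
    u ∈ T' ∧ ∃ (h1 : Acc (Ext T) s) (h2 : Acc (Ext T') u), h1.rank ≤ h2.rank
  let F := chosen T' P r
  let f : List ℕ → ℕ := fun s => (F s).headD 0
  have hF : ∀ s, mp f r s = F s := by
    intro s
    induction s with
    | nil => rfl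
    | cons n s ih =>
      show f (n :: s) :: mp f r s = _
      rw [ih]
      rfl
  have hmain : ∀ s, (s ≠ [] → s ∈ T) →
      ∃ (h1 : Acc (Ext T) s) (h2 : Acc (Ext T') (F s)), h1.rank ≤ h2.rank ∧ (s ≠ [] → F s ∈ T') := by
    intro s
    induction s with
    | nil => exact fun _ => ⟨hs, hr, hle, fun h => absurd rfl h⟩
    | cons n s ih =>
      intro h
      have hmem : n :: s ∈ T := h (List.cons_ne_nil _ _)
      obtain ⟨h1, h2, h3, -⟩ := ih (hT n s hmem)
      obtain ⟨m, h', hm⟩ := exists_child h1 h2 h3 (s' := n :: s) ⟨⟨n, rfl⟩, hmem⟩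
      have hex : ∃ m, P (n :: s) (m :: F s) := ⟨m, h'.2, _, _, hm⟩
      have hFs : F (n :: s) = hex.choose :: F s := by
        show (if h : ∃ m, P (n :: s) (m :: chosen T' P r s) then h.choose else 0) :: _ = _
        rw [dif_pos hex]
      have hspec := hex.choose_spec
      rw [← hFs] at hspec
      obtain ⟨ha, hb, hc, hd⟩ := hspec
      exact ⟨hb, hc, hd, fun _ => ha⟩
  refine ⟨f, fun n s hns => ?_⟩
  rw [hF]
  exact (hmain (n :: s) fun _ => hns).2.2.2 (List.cons_ne_nil _ _)

lemma maps_iff {T T' : Set (List ℕ)} (hT : ∀ n s, n :: s ∈ T → s ≠ [] → s ∈ T)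
    {r : List ℕ} (hr : Acc (Ext T') r) :
    Maps T T' r ↔ ∃ hs : Acc (Ext T) [], hs.rank ≤ hr.rank := by
  constructor
  · rintro ⟨f, hf⟩
    exact Maps.acc f hf r hr [] rfl
  · rintro ⟨hs, hle⟩
    exact maps_of_rank hT hs hr hle

/-- The strict comparison. -/
def MapsLt (T T' : Set (List ℕ)) : Prop := ∃ a : ℕ, [a] ∈ T' ∧ Maps T T' [a]

lemma mapsLt_iff {T T' : Set (List ℕ)} (hT : ∀ n s, n :: s ∈ T → s ≠ [] → s ∈ T)
    (hr : Acc (Ext T') []) :
    MapsLt T T' ↔ ∃ hs : Acc (Ext T) [], hs.rank < hr.rank := by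
  constructor
  · rintro ⟨a, ha, hm⟩
    have hrel : Ext T' [a] [] := ⟨⟨a, rfl⟩, ha⟩
    obtain ⟨hs, hle⟩ := (maps_iff hT (hr.inv hrel)).1 hm
    exact ⟨hs, lt_of_le_of_lt hle (Acc.rank_lt_of_rel hr hrel)⟩
  · rintro ⟨hs, hlt⟩
    rw [hr.rank_eq, Ordinal.lt_iSup_iff] at hlt
    obtain ⟨⟨b, ⟨n, rfl⟩, hb⟩, hlt⟩ := hlt
    exact ⟨n, hb, (maps_iff hT (hr.inv ⟨⟨n, rfl⟩, hb⟩)).2 ⟨hs, Order.lt_succ_iff.1 hlt⟩⟩

/-! ### Analytic sets as projections of trees -/

/-- The finite initial segments of a sequence. -/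
def seg (y : ℕ → ℕ) : ℕ → List ℕ
  | 0 => []
  | n + 1 => y n :: seg y n

lemma seg_length (y : ℕ → ℕ) (n : ℕ) : (seg y n).length = n := by
  induction n with
  | zero => rfl
  | succ n ih => simp [seg, ih]

lemma seg_inj {y z : ℕ → ℕ} {n : ℕ} (h : seg y n = seg z n) : ∀ i < n, y i = z i := by
  induction n with
  | zero => intro i hi; omega
  | succ n ih =>
    intro i hi
    simp only [seg, List.cons.injEq] at h
    rcases Nat.lt_succ_iff_lt_or_eq.1 hi with h1 | h1
    · exact ih h.2 i h1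
    · rw [h1]; exact h.1

/-- The tree of the closed set `G` over the point `x`. -/
def tr (G : Set ((ℕ → ℤ) × (ℕ → ℕ))) (x : ℕ → ℤ) : Set (List ℕ) :=
  {s | ∃ p ∈ G, (∀ i < s.length, p.1 i = x i) ∧ seg p.2 s.length = s}

lemma tr_tail (G : Set ((ℕ → ℤ) × (ℕ → ℕ))) (x : ℕ → ℤ) :
    ∀ n s, n :: s ∈ tr G x → s ≠ [] → s ∈ tr G x := by
  rintro n s ⟨p, hp, h1, h2⟩ -
  refine ⟨p, hp, fun i hi => h1 i (by simp; omega), ?_⟩
  simp only [List.length_cons, seg, List.cons.injEq] at h2
  exact h2.2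

lemma mem_iff_chain {G : Set ((ℕ → ℤ) × (ℕ → ℕ))} (hG : IsClosed G) (x : ℕ → ℤ) :
    (∃ y, (x, y) ∈ G) ↔ ¬ Acc (Ext (tr G x)) [] := by
  rw [not_acc_iff_exists_descending_chain]
  constructor
  · rintro ⟨y, hy⟩
    refine ⟨seg y, rfl, fun n => ⟨⟨y n, rfl⟩, (x, y), hy, fun _ _ => rfl, ?_⟩⟩
    rw [seg_length]
  · rintro ⟨f, h0, hf⟩
    choose y hy using fun n => (hf n).1
    have hseg : ∀ n, f n = seg y n := by
      intro n
      induction n with
      | zero => exact h0
      | succ n ih => rw [hy n, ih]; rfl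
    have hmem : ∀ n, ∃ p ∈ G, (∀ i < n + 1, p.1 i = x i) ∧ seg p.2 (n + 1) = seg y (n + 1) := by
      intro n
      obtain ⟨p, hp, h1, h2⟩ := (hf n).2
      rw [hseg, seg_length] at h1 h2
      exact ⟨p, hp, h1, h2⟩
    choose p hp h1 h2 using hmem
    refine ⟨y, hG.mem_of_tendsto (f := p) (b := atTop) ?_ (Eventually.of_forall hp)⟩
    rw [Prod.tendsto_iff]
    constructor
    · rw [tendsto_pi_nhds]
      intro i
      refine tendsto_const_nhds.congr' ?_
      filter_upwards [eventually_ge_atTop i] with n hn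
      exact (h1 n i (by omega)).symm
    · rw [tendsto_pi_nhds]
      intro i
      refine tendsto_const_nhds.congr' ?_
      filter_upwards [eventually_ge_atTop i] with n hn
      exact (seg_inj (h2 n) i (by omega)).symm

lemma exists_closed_of_analytic {Z : Type*} [TopologicalSpace Z] [T2Space Z] {P : Set Z}
    (hP : AnalyticSet P) :
    ∃ G : Set (Z × (ℕ → ℕ)), IsClosed G ∧ ∀ x, x ∈ P ↔ ∃ y, (x, y) ∈ G := by
  rw [AnalyticSet] at hP
  rcases hP with rfl | ⟨f, hf, rfl⟩
  · exact ⟨∅, isClosed_empty, fun x => by simp⟩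
  · refine ⟨{p | f p.2 = p.1}, isClosed_eq (hf.comp continuous_snd) continuous_fst, fun x => ?_⟩
    simp [mem_range]

lemma isClosed_of_locally_const {Y : Type*} [TopologicalSpace Y] {Q : Y → Prop}
    (h : ∀ p, ∀ᶠ q in 𝓝 p, (Q q ↔ Q p)) : IsClosed {p | Q p} := by
  rw [← isOpen_compl_iff, isOpen_iff_mem_nhds]
  intro p hp
  filter_upwards [h p] with q hq hq'
  exact hp (hq.1 hq')

lemma eventually_apply_eq {ι E : Type*} [TopologicalSpace E] [DiscreteTopology E] (x : ι → E)
    (i : ι) : ∀ᶠ x' in 𝓝 x, x' i = x i := by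
  have h : Tendsto (fun x' : ι → E => x' i) (𝓝 x) (𝓝 (x i)) := (continuous_apply i).continuousAt
  rw [nhds_discrete E, tendsto_pure] at h
  exact h

lemma tr_locally (G : Set ((ℕ → ℤ) × (ℕ → ℕ))) (x : ℕ → ℤ) (s : List ℕ) :
    ∀ᶠ x' in 𝓝 x, (s ∈ tr G x' ↔ s ∈ tr G x) := by
  have h1 : ∀ᶠ x' in 𝓝 x, ∀ i ∈ {i | i < s.length}, x' i = x i :=
    (eventually_all_finite (Set.finite_lt_nat s.length)).2 fun i _ => eventually_apply_eq x i
  filter_upwards [h1] with x' hx'
  constructor
  · rintro ⟨p, hp, h2, h3⟩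
    exact ⟨p, hp, fun i hi => (h2 i hi).trans (hx' i hi), h3⟩
  · rintro ⟨p, hp, h2, h3⟩
    exact ⟨p, hp, fun i hi => (h2 i hi).trans (hx' i hi).symm, h3⟩

lemma mp_locally (f : List ℕ → ℕ) (r s : List ℕ) : ∀ᶠ f' in 𝓝 f, mp f' r s = mp f r s := by
  induction s with
  | nil => exact Eventually.of_forall fun _ => rfl
  | cons n s ih =>
    filter_upwards [ih, eventually_apply_eq f (n :: s)] with f' h1 h2
    simp only [mp, h1, h2]

lemma isClosed_maps (G G' : Set ((ℕ → ℤ) × (ℕ → ℕ))) (r : List ℕ) :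
    IsClosed {p : (ℕ → ℤ) × (List ℕ → ℕ) |
      ∀ n s, n :: s ∈ tr G p.1 → mp p.2 r (n :: s) ∈ tr G' p.1} := by
  have h : {p : (ℕ → ℤ) × (List ℕ → ℕ) |
      ∀ n s, n :: s ∈ tr G p.1 → mp p.2 r (n :: s) ∈ tr G' p.1} = ⋂ n, ⋂ s,
      {p : (ℕ → ℤ) × (List ℕ → ℕ) | n :: s ∈ tr G p.1 → mp p.2 r (n :: s) ∈ tr G' p.1} := by
    ext p
    simp only [mem_ofPred_eq, mem_iInter]
  rw [h]
  refine isClosed_iInter fun n => isClosed_iInter fun s => ?_
  refine isClosed_of_locally_const fun p => ?_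
  have h1 := (continuous_fst (X := ℕ → ℤ) (Y := List ℕ → ℕ)).continuousAt (x := p)
    |>.eventually (tr_locally G p.1 (n :: s))
  have h2 := (continuous_fst (X := ℕ → ℤ) (Y := List ℕ → ℕ)).continuousAt (x := p)
    |>.eventually (tr_locally G' p.1 (mp p.2 r (n :: s)))
  have h3 := (continuous_snd (X := ℕ → ℤ) (Y := List ℕ → ℕ)).continuousAt (x := p)
    |>.eventually (mp_locally p.2 r (n :: s))
  filter_upwards [h1, h2, h3] with q h1 h2 h3
  rw [h1, h3, h2]

lemma analyticSet_maps (G G' : Set ((ℕ → ℤ) × (ℕ → ℕ))) (r : List ℕ) :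
    AnalyticSet {x | Maps (tr G x) (tr G' x) r} := by
  have h := (isClosed_maps G G' r).analyticSet.image_of_continuous continuous_fst
  convert h using 1
  ext x
  constructor
  · rintro ⟨f, hf⟩
    exact ⟨(x, f), hf, rfl⟩
  · rintro ⟨⟨x', f⟩, hf, rfl⟩
    exact ⟨f, hf⟩

lemma analyticSet_inter {Z : Type*} [TopologicalSpace Z] [T2Space Z] {P Q : Set Z}
    (hP : AnalyticSet P) (hQ : AnalyticSet Q) : AnalyticSet (P ∩ Q) := by
  rw [inter_eq_iInter]
  exact AnalyticSet.iInter (Bool.rec hQ hP)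

lemma analyticSet_union {Z : Type*} [TopologicalSpace Z] {P Q : Set Z}
    (hP : AnalyticSet P) (hQ : AnalyticSet Q) : AnalyticSet (P ∪ Q) := by
  rw [union_eq_iUnion]
  exact AnalyticSet.iUnion (Bool.rec hQ hP)

lemma isClosed_tr (G : Set ((ℕ → ℤ) × (ℕ → ℕ))) (s : List ℕ) : IsClosed {x | s ∈ tr G x} :=
  isClosed_of_locally_const fun x => tr_locally G x s

lemma analyticSet_mapsLt (G G' : Set ((ℕ → ℤ) × (ℕ → ℕ))) :
    AnalyticSet {x | MapsLt (tr G x) (tr G' x)} := by
  have h : {x | MapsLt (tr G x) (tr G' x)} =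
      ⋃ a : ℕ, {x | [a] ∈ tr G' x} ∩ {x | Maps (tr G x) (tr G' x) [a]} := by
    ext x
    simp only [mem_iUnion, mem_inter_iff, mem_ofPred_eq, MapsLt]
  rw [h]
  exact AnalyticSet.iUnion fun a =>
    analyticSet_inter (isClosed_tr G' [a]).analyticSet (analyticSet_maps G G' [a])

/-- **The reduction property** for a sequence of coanalytic sets. -/
theorem reduction (R : ℕ → Set (ℕ → ℤ)) (hR : ∀ k, AnalyticSet (R k)ᶜ) :
    ∃ S : ℕ → Set (ℕ → ℤ), (∀ k, AnalyticSet (S k)ᶜ) ∧ (∀ k, S k ⊆ R k) ∧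
      (∀ j k x, x ∈ S j → x ∈ S k → j = k) ∧ ∀ k x, x ∈ R k → ∃ j, x ∈ S j := by
  classical
  choose G hG hGR using fun k => exists_closed_of_analytic (hR k)
  have hacc : ∀ k x, x ∈ R k ↔ Acc (Ext (tr (G k) x)) [] := by
    intro k x
    have h1 := hGR k x
    rw [mem_iff_chain (hG k) x, mem_compl_iff, not_iff_not] at h1
    exact h1
  have htail : ∀ k x, ∀ n s, n :: s ∈ tr (G k) x → s ≠ [] → s ∈ tr (G k) x :=
    fun k x => tr_tail (G k) x
  let S : ℕ → Set (ℕ → ℤ) := fun k =>
    {x | x ∈ R k ∧ (∀ j, j < k → ¬ Maps (tr (G j) x) (tr (G k) x) []) ∧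
      ∀ j, k < j → ¬ MapsLt (tr (G j) x) (tr (G k) x)}
  refine ⟨S, ?_, fun k x hx => hx.1, ?_, ?_⟩
  · intro k
    have h : (S k)ᶜ = (R k)ᶜ ∪ ((⋃ j : {j // j < k}, {x | Maps (tr (G j) x) (tr (G k) x) []}) ∪
        ⋃ j : {j // k < j}, {x | MapsLt (tr (G j) x) (tr (G k) x)}) := by
      ext x
      simp only [S, mem_compl_iff, mem_ofPred_eq, mem_union, mem_iUnion]
      constructor
      · intro hx
        by_cases h1 : x ∈ R k
        · right
          by_cases h2 : ∃ j, j < k ∧ Maps (tr (G j) x) (tr (G k) x) []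
          · left
            obtain ⟨j, hj, hm⟩ := h2
            exact ⟨⟨j, hj⟩, hm⟩
          · right
            by_contra h3
            apply hx
            refine ⟨h1, fun j hj hm => h2 ⟨j, hj, hm⟩, fun j hj hm => h3 ⟨⟨j, hj⟩, hm⟩⟩
        · exact Or.inl h1
      · rintro (h1 | ⟨⟨j, hj⟩, hm⟩ | ⟨⟨j, hj⟩, hm⟩) hx
        · exact h1 hx.1
        · exact hx.2.1 j hj hm
        · exact hx.2.2 j hj hm
    rw [h]
    exact analyticSet_union (hR k) (analyticSet_union
      (AnalyticSet.iUnion fun j => analyticSet_maps _ _ _)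
      (AnalyticSet.iUnion fun j => analyticSet_mapsLt _ _))
  · have main : ∀ j k x, j < k → x ∈ S j → x ∈ S k → False := by
      intro j k x hjk hj hk
      have hj1 := (hacc j x).1 hj.1
      have hk1 := (hacc k x).1 hk.1
      have h1 := hk.2.1 j hjk
      have h2 := hj.2.2 k hjk
      rw [maps_iff (htail j x) hk1] at h1
      rw [mapsLt_iff (htail k x) hj1] at h2
      push Not at h1 h2
      exact absurd (h1 hj1) (not_lt.2 (h2 hk1))
    intro j k x hj hk
    rcases lt_trichotomy j k with h | h | h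
    · exact (main j k x h hj hk).elim
    · exact h
    · exact (main k j x h hk hj).elim
  · intro k0 x hx0
    -- the least index minimizing the rank
    let ρ : ℕ → Ordinal := fun k => if h : Acc (Ext (tr (G k) x)) [] then h.rank else 0
    have hρ : ∀ k (h : Acc (Ext (tr (G k) x)) []), ρ k = h.rank := fun k h => dif_pos h
    let I : Set Ordinal := {o | ∃ k, x ∈ R k ∧ ρ k = o}
    have hI : I.Nonempty := ⟨ρ k0, k0, hx0, rfl⟩
    have hmin : ∃ k, x ∈ R k ∧ ∀ j, x ∈ R j → ρ k ≤ ρ j := by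
      obtain ⟨k, hk, hk'⟩ := csInf_mem hI
      exact ⟨k, hk, fun j hj => hk' ▸ csInf_le' ⟨j, hj, rfl⟩⟩
    let k := Nat.find hmin
    have hk := Nat.find_spec hmin
    have hk1 := (hacc k x).1 hk.1
    refine ⟨k, hk.1, fun j hj hm => ?_, fun j hj hm => ?_⟩
    · rw [maps_iff (htail j x) hk1] at hm
      obtain ⟨hj1, hle⟩ := hm
      have hxj : x ∈ R j := (hacc j x).2 hj1
      refine Nat.find_min hmin hj ⟨hxj, fun i hi => ?_⟩
      rw [hρ j hj1]
      refine hle.trans ?_
      rw [← hρ k hk1]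
      exact hk.2 i hi
    · rw [mapsLt_iff (htail j x) hk1] at hm
      obtain ⟨hj1, hlt⟩ := hm
      have hxj : x ∈ R j := (hacc j x).2 hj1
      have h3 := hk.2 j hxj
      rw [← hρ j hj1, ← hρ k hk1] at hlt
      exact absurd hlt (not_lt.2 h3)

/-! ### The coding function -/

/-- A colouring of the integers with arbitrarily long intervals of either colour. -/
def bet (m : ℤ) : Bool := (Nat.log 2 m.natAbs).bodd

lemma bet_spec (b : Bool) (M : ℕ) : ∃ a : ℤ, ∀ m : ℤ, |m| ≤ M → bet (a + m) = b := by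
  let k := 2 * (M + 1) + (if b then 1 else 0)
  have hk : k.bodd = b := by
    cases b <;> simp [k]
  have hM : 2 * M < 2 ^ k := by
    calc 2 * M < 2 ^ (2 * M) := Nat.lt_two_pow_self
      _ ≤ 2 ^ k := Nat.pow_le_pow_right (by norm_num) (by simp only [k]; omega)
  refine ⟨2 ^ k + M, fun m hm => ?_⟩
  rw [abs_le] at hm
  have hcast : (2 : ℤ) ^ k = ((2 ^ k : ℕ) : ℤ) := by push_cast; rfl
  have h1 : Nat.log 2 (((2 : ℤ) ^ k + M + m).natAbs) = k := by
    rw [hcast]
    refine (Nat.log_eq_iff (Or.inr ⟨by norm_num, by omega⟩)).2 ⟨by omega, ?_⟩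
    rw [pow_succ]
    omega
  rw [bet, h1, hk]

/-- The coding function on sequences of integers. -/
def phi (x : ℕ → ℤ) : ℕ → Bool := fun i => bet (x i)

lemma continuous_phi : Continuous phi :=
  continuous_pi fun i => (continuous_of_discreteTopology (f := bet)).comp (continuous_apply i)

lemma catch_seq {x : ℕ → ℕ → ℤ} (hx : Tendsto x atTop (𝓝 0)) (c : ℕ → Bool) :
    ∃ z : ℕ → ℤ, ∀ n, phi (z + x n) = c := by
  have h1 : ∀ i, ∃ M : ℕ, ∀ n, |x n i| ≤ M := by
    intro i
    have h2 : Tendsto (fun n => x n i) atTop (𝓝 0) := (tendsto_pi_nhds.1 hx) i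
    obtain ⟨C, hC⟩ := (Metric.isBounded_range_of_tendsto _ h2).exists_norm_le
    refine ⟨⌈C⌉₊, fun n => ?_⟩
    have h3 := hC _ (mem_range_self n)
    rw [Int.norm_eq_abs] at h3
    have h4 := h3.trans (Nat.le_ceil C)
    exact_mod_cast h4
  choose M hM using h1
  choose z hz using fun i => bet_spec (c i) (M i)
  refine ⟨z, fun n => ?_⟩
  funext i
  exact hz i _ (hM i n)

/-! ### Codes for sequences of analytic sets -/

lemma exists_universal : ∃ R : ℕ → Set (ℕ → ℤ), (∀ k, AnalyticSet (R k)ᶜ) ∧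
    ∀ D : ℕ → Set (ℕ → ℤ), (∀ k, AnalyticSet (D k)) →
      ∃ c : ℕ → Bool, ∀ x, phi x = c → ∀ k, x ∈ R k ↔ x ∉ D k := by
  classical
  obtain ⟨b, hb, -, hbb⟩ := TopologicalSpace.exists_countable_basis ((ℕ → ℤ) × (ℕ → ℕ))
  obtain ⟨V, hV⟩ : ∃ V : ℕ → Set ((ℕ → ℤ) × (ℕ → ℕ)), b = range V := by
    refine hb.exists_eq_range ?_
    by_contra hne
    rw [Set.not_nonempty_iff_eq_empty] at hne
    obtain ⟨u, hu, -⟩ := hbb.exists_subset_of_mem_open (mem_univ (0, 0)) isOpen_univ
    rw [hne] at hu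
    exact hu
  have hVo : ∀ i, IsOpen (V i) := fun i => hbb.isOpen (hV ▸ mem_range_self i)
  let F : ℕ → Set ((ℕ → ℤ) × (ℕ → ℕ)) := fun k =>
    {p | ∀ i, phi p.1 (Nat.pair k i) = true → p ∉ V i}
  have hF : ∀ k, IsClosed (F k) := by
    intro k
    have h : F k = ⋂ i, {p : (ℕ → ℤ) × (ℕ → ℕ) | phi p.1 (Nat.pair k i) = true}ᶜ ∪ (V i)ᶜ := by
      ext p
      simp only [F, mem_ofPred_eq, mem_iInter, mem_union, mem_compl_iff, imp_iff_not_or]
    rw [h]
    refine isClosed_iInter fun i => IsClosed.union ?_ (hVo i).isClosed_compl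
    rw [isClosed_compl_iff]
    have hc : Continuous fun p : (ℕ → ℤ) × (ℕ → ℕ) => phi p.1 (Nat.pair k i) := by
      have h1 : Continuous fun p : (ℕ → ℤ) × (ℕ → ℕ) => phi p.1 :=
        continuous_phi.comp continuous_fst
      exact (continuous_pi_iff.1 h1) (Nat.pair k i)
    exact (isOpen_discrete ({true} : Set Bool)).preimage hc
  refine ⟨fun k => {x | ¬ ∃ y, (x, y) ∈ F k}, fun k => ?_, fun D hD => ?_⟩
  · have h := (hF k).analyticSet.image_of_continuous continuous_fst
    convert h using 1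
    ext x
    simp
  · choose G hG hGD using fun k => exists_closed_of_analytic (hD k)
    refine ⟨fun n => decide (Disjoint (V n.unpair.2) (G n.unpair.1)), fun x hx k => ?_⟩
    have hFG : ∀ y, (x, y) ∈ F k ↔ (x, y) ∈ G k := by
      intro y
      have h1 : ∀ i, phi x (Nat.pair k i) = true ↔ Disjoint (V i) (G k) := by
        intro i
        rw [hx]
        simp
      simp only [F, mem_ofPred_eq, h1]
      constructor
      · intro h
        by_contra hxy
        obtain ⟨u, hu, hxu, hsub⟩ :=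
          hbb.exists_subset_of_mem_open (show (x, y) ∈ (G k)ᶜ from hxy) (hG k).isOpen_compl
        rw [hV] at hu
        obtain ⟨i, rfl⟩ := hu
        exact h i (disjoint_left.2 fun p hp hpG => hsub hp hpG) hxu
      · intro h i hi hxi
        exact disjoint_left.1 hi hxi h
    rw [hGD k x]
    simp only [mem_ofPred_eq, hFG]

/-! ### The theorem -/

/-- A set `A` is null-finite if there is a sequence `s n → 0` such that for each `x` only finitely
many `n` satisfy `x + s n ∈ A`. -/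
def NullFinite {X : Type*} [AddCommGroup X] [TopologicalSpace X] (A : Set X) : Prop :=
  ∃ s : ℕ → X, Tendsto s atTop (𝓝 0) ∧ ∀ x : X, {n | x + s n ∈ A}.Finite

lemma finite_eq_of_tendsto {H : Type*} [TopologicalSpace H] [T1Space H] {h : ℕ → H} {a b : H}
    (hh : Tendsto h atTop (𝓝 a)) (hab : b ≠ a) : {n | h n = b}.Finite := by
  have h1 : ∀ᶠ n in atTop, h n ≠ b := hh.eventually_ne hab.symm
  obtain ⟨N, hN⟩ := eventually_atTop.1 h1
  refine (Set.finite_lt_nat N).subset fun n hn => ?_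
  by_contra hcon
  exact hN n (not_lt.1 hcon) hn

lemma finite_shift {H : Type*} [AddCommGroup H] [TopologicalSpace H] [IsTopologicalAddGroup H]
    [T2Space H] {h v : ℕ → H} (hh : Tendsto h atTop (𝓝 0)) (h0 : ∀ n, h n ≠ 0)
    (hv : Tendsto v atTop (𝓝 0)) (hne : ∀ m n, v m ≠ h n) (a : H) :
    {n | ∃ m, a + h n = v m}.Finite := by
  have hfib : ∀ b : H, {n | a + h n = b}.Finite := by
    intro b
    by_cases hb : b - a = 0
    · refine Set.finite_empty.subset fun n hn => ?_
      have h1 : h n = b - a := eq_sub_of_add_eq' hn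
      exact h0 n (h1.trans hb)
    · refine (finite_eq_of_tendsto hh hb).subset fun n hn => ?_
      exact eq_sub_of_add_eq' hn
  by_cases ha : a = 0
  · refine Set.finite_empty.subset fun n hn => ?_
    obtain ⟨m, hm⟩ := hn
    rw [ha, zero_add] at hm
    exact hne m n hm.symm
  · obtain ⟨U, W, hU, hW, haU, h0W, hUW⟩ := t2_separation ha
    have h1 : Tendsto (fun n => a + h n) atTop (𝓝 a) := by
      have := hh.const_add a
      rwa [add_zero] at this
    obtain ⟨N, hN⟩ := eventually_atTop.1 (h1.eventually (hU.mem_nhds haU))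
    obtain ⟨M, hM⟩ := eventually_atTop.1 (hv.eventually (hW.mem_nhds h0W))
    have hfin : ({n | n < N} ∪ ⋃ m ∈ {m | m < M}, {n | a + h n = v m}).Finite :=
      (Set.finite_lt_nat N).union ((Set.finite_lt_nat M).biUnion fun m _ => hfib (v m))
    refine hfin.subset fun n hn => ?_
    obtain ⟨m, hm⟩ := hn
    by_cases hnN : n < N
    · exact Or.inl hnN
    · right
      by_cases hmM : m < M
      · exact mem_biUnion hmM hm
      · exact (disjoint_left.1 hUW (hm ▸ hN n (not_lt.1 hnN)) (hM m (not_lt.1 hmM))).elim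

lemma exists_decoding {H : Type*} [TopologicalSpace H] [PolishSpace H] [MeasurableSpace H]
    [BorelSpace H] {a b : H} (hab : a ≠ b) :
    ∃ Ψ : (ℕ → Bool) → (ℕ → H), Measurable Ψ ∧ Function.Surjective Ψ := by
  classical
  have hunc : ¬ Countable (ℕ → H) := by
    intro hc
    have : Nonempty H := ⟨a⟩
    obtain ⟨f, hf⟩ := exists_surjective_nat (ℕ → H)
    obtain ⟨m, hm⟩ := hf fun n => if f n n = a then b else a
    have h1 : f m m = if f m m = a then b else a := congrFun hm m
    by_cases h2 : f m m = a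
    · rw [if_pos h2, h2] at h1
      exact hab h1
    · rw [if_neg h2] at h1
      exact h2 h1
  let e := PolishSpace.measurableEquivNatBoolOfNotCountable hunc
  exact ⟨e.symm, e.symm.measurable, e.symm.surjective⟩

theorem result (H : Type*) [AddCommGroup H] [TopologicalSpace H] [IsTopologicalAddGroup H]
    [PolishSpace H] (hH : ¬ DiscreteTopology H) :
    ∃ A : Set ((ℕ → ℤ) × H), AnalyticSet Aᶜ ∧ NullFinite A ∧
      ∀ B : Set ((ℕ → ℤ) × H), MeasurableSet[borel ((ℕ → ℤ) × H)] B → A ⊆ B → ¬ NullFinite B := by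
  classical
  let _ : MeasurableSpace H := borel H
  have _ : BorelSpace H := ⟨rfl⟩
  -- a sequence of nonzero elements converging to zero
  have hne : (𝓝[≠] (0 : H)).NeBot := by
    rw [neBot_iff]
    intro h
    exact hH (discreteTopology_of_isOpen_singleton_zero
      ((isOpen_singleton_iff_punctured_nhds 0).2 h))
  obtain ⟨h0, hh0⟩ := exists_seq_tendsto (𝓝[≠] (0 : H))
  rw [tendsto_nhdsWithin_iff] at hh0
  obtain ⟨hh0, hev⟩ := hh0
  obtain ⟨N0, hN0⟩ := eventually_atTop.1 hev
  obtain ⟨h, hh, hnz⟩ : ∃ h : ℕ → H, Tendsto h atTop (𝓝 0) ∧ ∀ n, h n ≠ 0 :=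
    ⟨fun n => h0 (n + N0), hh0.comp (tendsto_add_atTop_nat N0), fun n => hN0 _ (by omega)⟩
  obtain ⟨g, hg0, hgs⟩ : ∃ g : ℕ → H, g 0 = 0 ∧ ∀ n, g (n + 1) = h n :=
    ⟨fun k => Nat.rec 0 (fun n _ => h n) k, rfl, fun n => rfl⟩
  obtain ⟨Ψ, hΨ, hΨs⟩ := exists_decoding (hnz 0)
  obtain ⟨R, hR, hcode⟩ := exists_universal
  obtain ⟨S, hS, hSR, hSd, hSu⟩ := reduction R hR
  let A1 : Set ((ℕ → ℤ) × H) := {p | ∃ k, p.1 ∈ S k ∧ p.2 = g k}
  let A0 : Set ((ℕ → ℤ) × H) := {p | Tendsto (fun n => Ψ (phi p.1) n) atTop (𝓝 0) ∧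
    (∀ n k, Ψ (phi p.1) n ≠ g k) ∧ ∃ n, p.2 = Ψ (phi p.1) n}
  have hmeas : ∀ n, Measurable fun p : (ℕ → ℤ) × H => Ψ (phi p.1) n := fun n =>
    (measurable_pi_apply n).comp (hΨ.comp (continuous_phi.measurable.comp measurable_fst))
  have hA0 : MeasurableSet A0 := by
    have h1 : A0 = {p | Tendsto (fun n => Ψ (phi p.1) n) atTop (𝓝 0)} ∩
        ((⋂ n, ⋂ k, {p : (ℕ → ℤ) × H | Ψ (phi p.1) n = g k}ᶜ) ∩
          ⋃ n, {p : (ℕ → ℤ) × H | p.2 = Ψ (phi p.1) n}) := by
      ext p
      simp only [A0, mem_ofPred_eq, mem_inter_iff, mem_iInter, mem_iUnion, mem_compl_iff, ne_eq]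
    rw [h1]
    refine (measurableSet_tendsto (𝓝 0) hmeas).inter (MeasurableSet.inter ?_ ?_)
    · exact MeasurableSet.iInter fun n => MeasurableSet.iInter fun k =>
        (measurableSet_eq_fun (hmeas n) measurable_const).compl
    · exact MeasurableSet.iUnion fun n => measurableSet_eq_fun measurable_snd (hmeas n)
  refine ⟨A1 ∪ A0, ?_, ⟨fun n => (0, h n), ?_, ?_⟩, ?_⟩
  · rw [compl_union]
    refine analyticSet_inter ?_ hA0.compl.analyticSet
    have h1 : A1ᶜ = ⋂ k, (Prod.fst ⁻¹' (S k)ᶜ ∪ (Prod.snd ⁻¹' {g k})ᶜ) := by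
      ext p
      simp only [A1, mem_compl_iff, mem_ofPred_eq, mem_iInter, mem_union, mem_preimage,
        mem_singleton_iff, not_exists, not_and_or]
    rw [h1]
    refine AnalyticSet.iInter fun k => analyticSet_union ((hS k).preimage continuous_fst) ?_
    exact (measurable_snd (measurableSet_singleton (g k))).compl.analyticSet
  · exact (tendsto_const_nhds (x := (0 : ℕ → ℤ))).prodMk_nhds hh
  · intro p
    have h1 : {n | p.2 + h n ∈ g '' {k | p.1 ∈ S k}}.Finite := by
      by_cases hk : ∃ k, p.1 ∈ S k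
      · obtain ⟨k, hk⟩ := hk
        have h2 : {n | p.2 + h n = g k}.Finite := by
          by_cases hb : g k - p.2 = 0
          · refine Set.finite_empty.subset fun n hn => ?_
            exact hnz n ((eq_sub_of_add_eq' hn).trans hb)
          · exact (finite_eq_of_tendsto hh hb).subset fun n hn => eq_sub_of_add_eq' hn
        refine h2.subset fun n hn => ?_
        obtain ⟨j, hj, hjn⟩ := hn
        rw [hSd j k p.1 hj hk] at hjn
        exact hjn.symm
      · refine Set.finite_empty.subset fun n hn => ?_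
        obtain ⟨j, hj, -⟩ := hn
        exact hk ⟨j, hj⟩
    have h2 : {n | p + ((0 : ℕ → ℤ), h n) ∈ A0}.Finite := by
      by_cases hv : Tendsto (fun n => Ψ (phi p.1) n) atTop (𝓝 0) ∧ ∀ n k, Ψ (phi p.1) n ≠ g k
      · refine (finite_shift hh hnz hv.1 (fun m n => hgs n ▸ hv.2 m (n + 1)) p.2).subset ?_
        intro n hn
        obtain ⟨-, -, m, hm⟩ := hn
        refine ⟨m, ?_⟩
        simpa using hm
      · refine Set.finite_empty.subset fun n hn => ?_
        obtain ⟨h3, h4, -⟩ := hn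
        apply hv
        simp only [Prod.fst_add, add_zero] at h3 h4
        exact ⟨h3, h4⟩
    refine (h1.union h2).subset fun n hn => ?_
    rcases hn with hn | hn
    · left
      obtain ⟨k, hk, hk2⟩ := hn
      simp only [Prod.fst_add, Prod.snd_add, add_zero] at hk hk2
      exact ⟨k, hk, hk2.symm⟩
    · exact Or.inr hn
  · rintro B hB hAB ⟨s, hs, hfin⟩
    have hBm : MeasurableSet B := by
      rw [BorelSpace.measurable_eq (α := (ℕ → ℤ) × H)]
      exact hB
    have hx : Tendsto (fun n => (s n).1) atTop (𝓝 0) := (Prod.tendsto_iff _ _).1 hs |>.1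
    have hy : Tendsto (fun n => (s n).2) atTop (𝓝 0) := (Prod.tendsto_iff _ _).1 hs |>.2
    by_cases hcase : ∃ᶠ n in atTop, (s n).2 ∉ range g
    · obtain ⟨q, hq, hqn⟩ := extraction_of_frequently_atTop hcase
      obtain ⟨c, hc⟩ := hΨs fun n => (s (q n)).2
      obtain ⟨z, hz⟩ := catch_seq hx c
      refine (Set.infinite_range_of_injective hq.injective) ((hfin (z, 0)).subset ?_)
      rintro _ ⟨n, rfl⟩
      apply hAB
      right
      have h1 : Ψ (phi ((z, (0 : H)) + s (q n)).1) = fun n => (s (q n)).2 := by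
        rw [Prod.fst_add, hz, hc]
      refine ⟨?_, ?_, n, ?_⟩
      · rw [h1]
        exact hy.comp hq.tendsto_atTop
      · intro m k hmk
        rw [h1] at hmk
        exact hqn m ⟨k, hmk.symm⟩
      · rw [h1, Prod.snd_add, zero_add]
    · rw [not_frequently] at hcase
      simp only [not_not] at hcase
      have hD : ∀ k, AnalyticSet {x : ℕ → ℤ | (x, g k) ∈ B} := fun k =>
        hBm.analyticSet.preimage (f := fun x : ℕ → ℤ => (x, g k))
          (continuous_id.prodMk continuous_const)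
      obtain ⟨c, hc⟩ := hcode _ hD
      have hall : ∀ w, phi w = c → ∀ k, (w, g k) ∈ B := by
        intro w hw k
        by_contra hk
        have h1 : w ∈ R k := (hc w hw k).2 hk
        obtain ⟨j, hj⟩ := hSu k w h1
        exact (hc w hw j).1 (hSR j hj) (hAB (Or.inl ⟨j, hj, rfl⟩))
      obtain ⟨z, hz⟩ := catch_seq hx c
      obtain ⟨N, hN⟩ := eventually_atTop.1 hcase
      refine (Set.Ici_infinite N) ((hfin (z, 0)).subset ?_)
      intro n hn
      obtain ⟨k, hk⟩ := hN n hn
      have h1 : (z, (0 : H)) + s n = (z + (s n).1, g k) := by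
        rw [hk]
        refine Prod.ext rfl ?_
        rw [Prod.snd_add, zero_add]
      show (z, (0 : H)) + s n ∈ B
      rw [h1]
      exact hall _ (hz n) k

end Pool.Agent.Results.MP_ceb5ee_gt.CoanalyticNoHull
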